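import Pool.Agent.MP_2b113a_an.H33.Defs

/-! The induced representation of a lattice. -/

namespace Pool.Agent.MP_2b113a_an.H89

open MeasureTheory Filter Topology Set Pool.Agent.MP_2b113a_an.H33
open scoped ENNReal symmDiff

noncomputable section

section twist

variable {X Γ H : Type} [MeasurableSpace X] [Countable Γ] [MeasurableSpace Γ]
  [MeasurableSingletonClass Γ] [NormedAddCommGroup H] [NormedSpace ℝ H]
  (π : Γ → (H ≃ₗᵢ[ℝ] H)) {a : X → Γ} (ha : Measurable a)

include ha in
lemma sm_twist {φ : X → H} (hφ : StronglyMeasurable φ) :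
    StronglyMeasurable fun y => π (a y) (φ y) := by
  borelize H
  rw [stronglyMeasurable_iff_measurable_separable] at hφ ⊢
  refine ⟨(measurable_from_prod_countable_right (f := fun p : Γ × H => π p.1 p.2)
    fun γ => (π γ).continuous.measurable).comp (ha.prodMk hφ.1), ?_⟩
  refine (TopologicalSpace.IsSeparable.iUnion fun γ => hφ.2.image (π γ).continuous).mono ?_
  rintro _ ⟨y, rfl⟩
  exact mem_iUnion.2 ⟨a y, _, ⟨y, rfl⟩, rfl⟩

include ha in
lemma memLp_twist {μ : Measure X} (η : Lp H 2 μ) : MemLp (fun y => π (a y) (η y)) 2 μ :=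
  (Lp.memLp η).congr_norm (sm_twist π ha (Lp.stronglyMeasurable η)).aestronglyMeasurable
    (.of_forall fun y => by simp)

/-- Pointwise action of a measurable family of isometries. -/
def twist (μ : Measure X) : Lp H 2 μ →ₗᵢ[ℝ] Lp H 2 μ where
  toFun η := (memLp_twist π ha η).toLp _
  map_add' η ζ := by
    rw [← MemLp.toLp_add]
    exact MemLp.toLp_congr _ _ ((Lp.coeFn_add η ζ).mono fun y hy => by
      simp only [hy, Pi.add_apply, map_add])
  map_smul' r η := by
    rw [RingHom.id_apply, ← MemLp.toLp_const_smul]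
    exact MemLp.toLp_congr _ _ ((Lp.coeFn_smul r η).mono fun y hy => by simp [hy])
  norm_map' η := by
    change ‖(memLp_twist π ha η).toLp _‖ = _
    rw [Lp.norm_toLp, Lp.norm_def, eLpNorm_congr_norm_ae (g := η) (.of_forall fun y => by simp)]

lemma twist_ae {μ : Measure X} (η : Lp H 2 μ) : twist π ha μ η =ᵐ[μ] fun y => π (a y) (η y) :=
  (memLp_twist π ha η).coeFn_toLp

end twist

variable {G : Type} [Group G] [TopologicalSpace G] [IsTopologicalGroup G] [T2Space G]
  [LocallyCompactSpace G] [SecondCountableTopology G] [MeasurableSpace G] [BorelSpace G]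
  {m : Measure G} [m.IsHaarMeasure] [m.IsMulRightInvariant] {Γ : Subgroup G} [Countable Γ]
  (Λ : Lat m Γ)

/-- The projection to the fundamental domain. -/
def pr (y : G) : G := ((Λ.c y)⁻¹ : Γ) * y

section basic
set_option linter.unusedSectionVars false

lemma c_pr (y : G) : Λ.c (pr Λ y) = 1 := by rw [pr, Λ.c_mul, inv_mul_cancel]

lemma pr_mul (γ : Γ) (y : G) : pr Λ (γ * y) = pr Λ y := by simp [pr, Λ.c_mul, mul_assoc]

lemma pr_of_mem {y : G} (hy : Λ.c y = 1) : pr Λ y = y := by simp [pr, hy]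

lemma meas_c : Measurable Λ.c := measurable_to_countable' Λ.meas

lemma meas_pr : Measurable (pr Λ) :=
  (measurable_subtype_coe.comp (meas_c Λ).inv).mul measurable_id

lemma fund (g : G) : IsFundamentalDomain Γ {y | Λ.c (y * g) = 1} m := by
  refine .mk' (measurable_mul_const g (Λ.meas 1)).nullMeasurableSet fun x => ⟨(Λ.c (x * g))⁻¹, ?_,
    fun γ hγ => ?_⟩
  · change Λ.c (_ * x * g) = 1
    rw [mul_assoc, Λ.c_mul, inv_mul_cancel]
  · change Λ.c (_ * x * g) = 1 at hγ
    rw [mul_assoc, Λ.c_mul] at hγ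
    exact eq_inv_of_mul_eq_one_left hγ

lemma fund_one : IsFundamentalDomain Γ {y | Λ.c y = 1} m := by simpa using fund Λ 1

lemma mp (g : G) : MeasurePreserving (fun y => pr Λ (y * g)) (m.restrict {y | Λ.c y = 1})
    (m.restrict {y | Λ.c y = 1}) := by
  have h1 : Measurable fun y => pr Λ (y * g) := (meas_pr Λ).comp (measurable_mul_const g)
  refine ⟨h1, Measure.ext fun A hA => ?_⟩
  have h2 := (fund Λ g⁻¹).measure_set_eq (fund_one Λ) (meas_pr Λ hA)
    fun γ => Set.ext fun y => by
      change pr Λ (γ * y) ∈ A ↔ _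
      rw [pr_mul]; rfl
  rw [Measure.map_apply h1 hA, Measure.restrict_apply (h1 hA), Measure.restrict_apply hA]
  rw [← measure_preimage_mul_right m g] at h2
  convert h2 using 2
  · ext y; simp
  · ext y
    exact and_congr_left fun hy => by rw [mem_preimage, pr_of_mem Λ hy]

variable {H : Type} [NormedAddCommGroup H] [InnerProductSpace ℝ H] (π : Γ →* (H ≃ₗᵢ[ℝ] H))

/-- The operators of the induced representation. -/
def op (g : G) :
    Lp H 2 (m.restrict {y | Λ.c y = 1}) →ₗᵢ[ℝ] Lp H 2 (m.restrict {y | Λ.c y = 1}) :=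
  (twist π ((meas_c Λ).comp (measurable_mul_const g)) _).comp
    (Lp.compMeasurePreservingₗᵢ ℝ _ (mp Λ g))

lemma op_ae (g : G) (η : Lp H 2 (m.restrict {y | Λ.c y = 1})) :
    ∀ᵐ y ∂m.restrict {y | Λ.c y = 1}, op Λ π g η y = π (Λ.c (y * g)) (η (pr Λ (y * g))) := by
  filter_upwards [twist_ae π ((meas_c Λ).comp (measurable_mul_const g))
    (Lp.compMeasurePreserving _ (mp Λ g) η), Lp.coeFn_compMeasurePreserving η (mp Λ g)]
    with y h1 h2
  exact h1.trans (by rw [h2]; rfl)

lemma op_one (η : Lp H 2 (m.restrict {y | Λ.c y = 1})) : op Λ π 1 η = η := by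
  refine Lp.ext ?_
  filter_upwards [op_ae Λ π 1 η, ae_restrict_mem (Λ.meas 1)] with y h1 h2
  rw [h1, mul_one, pr_of_mem Λ h2, h2, map_one]
  rfl

lemma op_mul (g h : G) (η : Lp H 2 (m.restrict {y | Λ.c y = 1})) :
    op Λ π (g * h) η = op Λ π g (op Λ π h η) := by
  refine Lp.ext ?_
  filter_upwards [op_ae Λ π (g * h) η, op_ae Λ π g (op Λ π h η),
    (mp Λ g).quasiMeasurePreserving.ae (op_ae Λ π h η)] with y h1 h2 h3
  rw [h1, h2, h3, pr.eq_def Λ (y * g), mul_assoc _ (y * g), pr_mul, Λ.c_mul, map_mul, map_inv,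
    mul_assoc]
  simp

lemma op_indicator {K : Set G} (hK : MeasurableSet K) (hK' : m.restrict {y | Λ.c y = 1} K ≠ ∞)
    (v : H) : Tendsto (fun g => op Λ π g (indicatorConstLp 2 hK hK' v)) (𝓝 1)
      (𝓝 (indicatorConstLp 2 hK hK' v)) := by
  set μ := m.restrict {y | Λ.c y = 1} with hμ
  have hfin : IsFiniteMeasure μ := isFiniteMeasure_restrict.2 Λ.fin
  set K' := K ∩ {y | Λ.c y = 1} with hK2
  have hK3 : MeasurableSet K' := hK.inter (Λ.meas 1)
  have h1 : Tendsto (fun g : G => m (((fun y => y * g) ⁻¹' K') ∆ K')) (𝓝 1) (𝓝 0) := by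
    have := tendsto_measure_symmDiff_preimage_nhds_zero (μ := m) (ν := m) (l := 𝓝 (1 : G))
      (f := fun g => ContinuousMap.mulRight g) (g := ContinuousMap.mulRight 1) (s := K')
      ((ContinuousMap.curry ⟨fun p : G × G => p.2 * p.1, by fun_prop⟩).continuous.tendsto 1)
      (.of_forall fun g => measurePreserving_mul_right m g) (measurePreserving_mul_right m 1)
      hK3.nullMeasurableSet (by rwa [hμ, Measure.restrict_apply hK] at hK')
    simpa [Set.preimage] using this
  have h2 : Tendsto (fun g : G => 2 * ‖v‖ * (2 * m (((fun y => y * g) ⁻¹' K') ∆ K')).toReal ^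
      (1 / (2 : ℝ≥0∞).toReal)) (𝓝 1) (𝓝 0) := by
    have a1 := (ENNReal.tendsto_toReal ENNReal.zero_ne_top).comp
      (by simpa using ENNReal.Tendsto.const_mul (a := 2) h1 (by simp))
    simpa using (a1.rpow_const (p := 1 / (2 : ℝ≥0∞).toReal) (by simp)).const_mul (2 * ‖v‖)
  rw [tendsto_iff_norm_sub_tendsto_zero]
  refine squeeze_zero (fun _ => norm_nonneg _) (fun g => ?_) h2
  set S := K' ∩ (fun y => y * g) ⁻¹' K' with hS
  have hS1 : MeasurableSet S := hK3.inter (measurable_mul_const g hK3)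
  have hT := (mp Λ g).measurable hK
  have hS2 : S ⊆ (fun y => pr Λ (y * g)) ⁻¹' K := fun y hy => by
    rw [mem_preimage, pr_of_mem Λ hy.2.2]; exact hy.2.1
  have hB : MeasurableSet ((K ∪ (fun y => pr Λ (y * g)) ⁻¹' K) \ S) := (hK.union hT).diff hS1
  have h3 : μ (K \ S) ≤ m (((fun y => y * g) ⁻¹' K') ∆ K') := by
    rw [hμ, Measure.restrict_apply (hK.diff hS1)]
    exact measure_mono fun y hy => Or.inr ⟨⟨hy.1.1, hy.2⟩, fun h => hy.1.2 ⟨⟨hy.1.1, hy.2⟩, h⟩⟩
  have h4 : μ ((K ∪ (fun y => pr Λ (y * g)) ⁻¹' K) \ S) ≤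
      2 * m (((fun y => y * g) ⁻¹' K') ∆ K') := by
    rw [union_sdiff_distrib, two_mul]
    refine (measure_union_le _ _).trans (add_le_add h3 (le_trans (le_of_eq ?_) h3))
    rw [measure_sdiff hS2 hS1.nullMeasurableSet (measure_ne_top _ _),
      measure_sdiff (fun y hy => hy.1.1) hS1.nullMeasurableSet (measure_ne_top _ _),
      (mp Λ g).measure_preimage hK.nullMeasurableSet]
  refine (Lp.norm_le_norm_of_ae_le (g := indicatorConstLp 2 hB (measure_ne_top μ _) (2 * ‖v‖))
    ?_).trans ?_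
  · filter_upwards [Lp.coeFn_sub (op Λ π g (indicatorConstLp 2 hK hK' v))
      (indicatorConstLp 2 hK hK' v), op_ae Λ π g (indicatorConstLp 2 hK hK' v),
      indicatorConstLp_coeFn (p := 2) (hs := hK) (hμs := hK') (c := v),
      (mp Λ g).quasiMeasurePreserving.ae
        (indicatorConstLp_coeFn (p := 2) (hs := hK) (hμs := hK') (c := v)),
      indicatorConstLp_coeFn (p := 2) (hs := hB) (hμs := measure_ne_top μ _) (c := 2 * ‖v‖)]
      with y a1 a2 a3 a4 a5
    rw [a1, Pi.sub_apply, a2, a3, a4, a5]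
    by_cases hy : y ∈ (K ∪ (fun y => pr Λ (y * g)) ⁻¹' K) \ S
    · rw [indicator_of_mem hy, Real.norm_of_nonneg (by positivity), two_mul]
      refine (norm_sub_le _ _).trans (add_le_add ?_ (norm_indicator_le_norm_self _ _))
      rw [LinearIsometryEquiv.norm_map]
      exact norm_indicator_le_norm_self _ _
    · rw [indicator_of_notMem hy, norm_zero, norm_le_zero_iff]
      by_cases hy' : y ∈ S
      · rw [indicator_of_mem (mem_preimage.1 (hS2 hy')), indicator_of_mem hy'.1.1, hy'.2.2, map_one]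
        exact sub_self v
      · rw [indicator_of_notMem (s := K) (a := pr Λ (y * g)) fun h => hy ⟨Or.inr h, hy'⟩,
          indicator_of_notMem fun h => hy ⟨Or.inl h, hy'⟩]
        simp
  · rw [norm_indicatorConstLp (by simp) (by simp), Real.norm_of_nonneg (by positivity)]
    have : m (((fun y => y * g) ⁻¹' K') ∆ K') ≠ ∞ := by
      have hK4 : m K' ≠ ∞ := by rwa [hμ, Measure.restrict_apply hK] at hK'
      exact ne_top_of_le_ne_top (by simp [hK4])
        ((measure_mono symmDiff_subset_union).trans (measure_union_le _ _))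
    gcongr
    exact ENNReal.toReal_mono (by finiteness) h4

lemma op_cont (η : Lp H 2 (m.restrict {y | Λ.c y = 1})) : Continuous fun g => op Λ π g η := by
  induction η using Lp.induction (p := 2) (hp_ne_top := by simp) with
  | indicatorConst v hK hK' =>
    rw [Lp.simpleFunc.coe_indicatorConst, continuous_iff_continuousAt]
    intro g
    have h1 : Tendsto (fun h => g⁻¹ * h) (𝓝 g) (𝓝 1) := by
      simpa using (continuous_const_mul g⁻¹).tendsto g
    have := ((op Λ π g).continuous.tendsto _).comp ((op_indicator Λ π hK hK'.ne v).comp h1)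
    simpa [ContinuousAt, Function.comp_def, ← op_mul] using this
  | add hf hg _ h1 h2 => simp only [map_add]; exact h1.add h2
  | isClosed =>
    refine IsSeqClosed.isClosed fun x η hx hη => ?_
    refine TendstoUniformly.continuous (F := fun n g => op Λ π g (x n)) (p := atTop) ?_
      (.of_forall hx)
    rw [Metric.tendstoUniformly_iff]
    intro ε hε
    filter_upwards [Metric.tendsto_nhds.1 hη ε hε] with n hn g
    rwa [LinearIsometry.dist_map, dist_comm]

lemma op_fixed (η : Lp H 2 (m.restrict {y | Λ.c y = 1})) (hη : ∀ g, op Λ π g η = η) :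
    ∃ v, (∀ γ, π γ v = v) ∧ ∀ᵐ y ∂m.restrict {y | Λ.c y = 1}, η y = v := by
  set F : G → H := fun y => π (Λ.c y) (η (pr Λ y)) with hF
  have h1 : StronglyMeasurable F :=
    sm_twist π (meas_c Λ) ((Lp.stronglyMeasurable η).comp_measurable (meas_pr Λ))
  have h2 : ∀ (γ : Γ) y, F (γ * y) = π γ (F y) := fun γ y => by
    simp [hF, pr_mul, Λ.c_mul]
  have h3 : ∀ y, Λ.c y = 1 → F y = η y := fun y hy => by simp [hF, hy, pr_of_mem Λ hy]
  have h4 : ∀ g, ∀ᵐ y ∂m, F (y * g) = F y := fun g => by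
    refine (fund_one Λ).measure_zero_of_invariant _ (fun γ => Set.ext fun y => ?_) ?_
    · rw [mem_smul_set_iff_inv_smul_mem]
      change ¬ F ((γ⁻¹ : Γ) * y * g) = F ((γ⁻¹ : Γ) * y) ↔ ¬ F (y * g) = F y
      rw [mul_assoc, h2, h2, (π γ⁻¹).injective.eq_iff]
    · rw [← Measure.restrict_apply' (Λ.meas 1)]
      filter_upwards [op_ae Λ π g η, ae_restrict_mem (Λ.meas 1)] with y a1 a2
      rw [hη] at a1
      exact a1.symm.trans (h3 y a2).symm
  have h5 := (Measure.ae_ae_comm (μ := m) (ν := m) (p := fun g y => F (y * g) = F y)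
    ((h1.comp_measurable (measurable_snd.mul measurable_fst)).measurableSet_eq_fun
      (h1.comp_measurable measurable_snd))).1 (.of_forall h4)
  obtain ⟨y₀, h6⟩ := h5.exists
  have h7 : ∀ᵐ y ∂m, F y = F y₀ := by
    simpa using (measurePreserving_mul_left m y₀⁻¹).quasiMeasurePreserving.ae h6
  refine ⟨F y₀, fun γ => ?_, ?_⟩
  · obtain ⟨y, a1, a2⟩ :=
      (h7.and ((measurePreserving_mul_left m (γ : G)).quasiMeasurePreserving.ae h7)).exists
    rw [h2, a1] at a2
    exact a2
  · filter_upwards [ae_restrict_of_ae h7, ae_restrict_mem (Λ.meas 1)] with y a1 a2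
    rw [← h3 y a2, a1]

end basic

theorem ind : IndStmt := by
  intro G _ _ _ _ _ _ _ _ m _ _ Γ _ Λ H _ _ _ π
  exact ⟨MonoidHom.mk' (fun g => LinearIsometryEquiv.ofSurjective (op Λ π g)
    fun η => ⟨op Λ π g⁻¹ η, by rw [← op_mul, mul_inv_cancel, op_one]⟩)
    fun g h => LinearIsometryEquiv.ext fun η => op_mul Λ π g h η,
    op_cont Λ π, op_ae Λ π, op_fixed Λ π⟩

end

end Pool.Agent.MP_2b113a_an.H89
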